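import Mathlib

/-! Heights under a finite extension of number fields. -/

open NumberField Module

namespace GEL51

/-- A product over infinite places with multiplicity is a product over complex embeddings. -/
lemma prod_place_eq {K : Type*} [Field K] [NumberField K] (f : InfinitePlace K → ℝ) :
    ∏ w : InfinitePlace K, f w ^ w.mult = ∏ φ : K →+* ℂ, f (InfinitePlace.mk φ) := by
  classical
  rw [← Finset.prod_fiberwise Finset.univ InfinitePlace.mk]
  refine Finset.prod_congr rfl fun w _ ↦ ?_
  rw [Finset.prod_congr rfl fun φ hφ ↦ congrArg f (Finset.mem_filter.1 hφ).2, Finset.prod_const,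
    InfinitePlace.card_filter_mk_eq]

open Classical in
lemma card_ext (K L : Type*) [Field K] [NumberField K] [Field L] [NumberField L] [Algebra K L]
    (ψ : K →+* ℂ) :
    (Finset.univ.filter fun φ : L →+* ℂ ↦ φ.comp (algebraMap K L) = ψ).card = finrank K L := by
  let _ : Algebra K ℂ := ψ.toAlgebra
  rw [← AlgHom.card K L ℂ, ← Fintype.card_subtype]
  exact Fintype.card_congr
    { toFun := fun φ ↦ { φ.1 with commutes' := fun r ↦ DFunLike.congr_fun φ.2 r }
      invFun := fun φ ↦ ⟨φ, RingHom.ext φ.commutes⟩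
      left_inv := fun _ ↦ rfl
      right_inv := fun _ ↦ rfl }

lemma prod_emb_ext (K L : Type*) [Field K] [NumberField K] [Field L] [NumberField L] [Algebra K L]
    (g : (K →+* ℂ) → ℝ) :
    ∏ φ : L →+* ℂ, g (φ.comp (algebraMap K L)) = (∏ ψ : K →+* ℂ, g ψ) ^ finrank K L := by
  classical
  rw [← Finset.prod_fiberwise Finset.univ fun φ : L →+* ℂ ↦ φ.comp (algebraMap K L),
    ← Finset.prod_pow]
  refine Finset.prod_congr rfl fun ψ _ ↦ ?_
  rw [Finset.prod_congr rfl fun φ hφ ↦ congrArg g (Finset.mem_filter.1 hφ).2, Finset.prod_const,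
    card_ext]

/-- The height of an integral tuple: embeddings over the norm of the ideal of the entries. -/
lemma mulHeight_int {K ι : Type*} [Field K] [NumberField K] [Finite ι] {x : ι → 𝓞 K}
    (hx : x ≠ 0) : ((Ideal.span (Set.range x)).absNorm : ℝ) * Height.mulHeight (fun i ↦ (x i : K)) =
      ∏ φ : K →+* ℂ, ⨆ i, ‖φ (x i)‖ := by
  have hx' : (fun i ↦ (x i : K)) ≠ 0 := fun e ↦ hx (funext fun i ↦ by
    have : (x i : K) = 0 := congrFun e i
    change x i = 0
    exact_mod_cast this)
  rw [NumberField.mulHeight_eq hx', mul_left_comm, absNorm_mul_finprod_finitePlace_eq_one hx,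
    mul_one, prod_place_eq fun w ↦ ⨆ i, w (x i : K)]
  simp only [InfinitePlace.apply]

/-- The relative height over `L` is the relative height over `K` to the power `[L : K]`. -/
theorem mulHeight_algebraMap (K L : Type*) {ι : Type*} [Field K] [NumberField K] [Field L]
    [NumberField L] [Algebra K L] [Finite ι] (x : ι → K) :
    Height.mulHeight (fun i ↦ algebraMap K L (x i)) = Height.mulHeight x ^ finrank K L := by
  by_cases hx : x = 0
  · subst hx; simp
  obtain ⟨⟨b, hb⟩, hb'⟩ :=
    IsLocalization.exist_integer_multiples_of_finite (nonZeroDivisors (𝓞 K)) x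
  choose y hy using hb'
  have hb0 : (b : K) ≠ 0 := by exact_mod_cast nonZeroDivisors.ne_zero hb
  have hyx : (fun i ↦ (y i : K)) = (b : K) • x := funext fun i ↦ by
    rw [Pi.smul_apply, smul_eq_mul]; exact (hy i).trans (Algebra.smul_def _ _)
  have hy0 : y ≠ 0 := fun e ↦ by
    rw [e] at hyx
    exact smul_ne_zero hb0 hx (hyx.symm.trans (funext fun i ↦ by simp))
  let z : ι → 𝓞 L := fun i ↦ algebraMap (𝓞 K) (𝓞 L) (y i)
  have hz : ∀ i, (z i : L) = algebraMap K L (y i) := fun i ↦ rfl
  have hz0 : z ≠ 0 := fun e ↦ hy0 (funext fun i ↦ by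
    have h1 := hz i
    rw [e] at h1
    have h2 : (y i : K) = 0 := (map_eq_zero (algebraMap K L)).1 (h1.symm.trans (by simp))
    exact_mod_cast h2)
  have e1 : Height.mulHeight x = Height.mulHeight fun i ↦ (y i : K) := by
    rw [hyx, Height.mulHeight_smul_eq_mulHeight _ hb0]
  have e2 : Height.mulHeight (fun i ↦ algebraMap K L (x i)) =
      Height.mulHeight fun i ↦ (z i : L) := by
    rw [← Height.mulHeight_smul_eq_mulHeight _ ((map_ne_zero (algebraMap K L)).2 hb0)]
    congr 1
    funext i
    rw [hz, congrFun hyx i]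
    simp
  have hI : Ideal.span (Set.range z) = (Ideal.span (Set.range y)).map (algebraMap (𝓞 K) (𝓞 L)) := by
    rw [Ideal.map_span, ← Set.range_comp]; rfl
  have h1 := mulHeight_int hy0
  have h2 := mulHeight_int hz0
  have hN : ((Ideal.span (Set.range y)).absNorm : ℝ) ≠ 0 := by
    rw [Nat.cast_ne_zero, Ne, Ideal.absNorm_eq_zero_iff, Ideal.span_eq_bot]
    exact fun h ↦ hy0 (funext fun i ↦ h _ ⟨i, rfl⟩)
  have h3 := prod_emb_ext K L fun ψ ↦ ⨆ i, ‖ψ (y i)‖
  have hr : finrank (𝓞 K) (𝓞 L) = finrank K L := (IsFractionRing.finrank_eq (𝓞 K) K (𝓞 L) L).symm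
  rw [hI, Ideal.absNorm_algebraMap, hr, Nat.cast_pow] at h2
  rw [e1, e2]
  refine mul_left_cancel₀ (pow_ne_zero (finrank K L) hN) ?_
  rw [h2, ← mul_pow, h1, ← h3]
  rfl

theorem logHeight_algebraMap (K L : Type*) {ι : Type*} [Field K] [NumberField K] [Field L]
    [NumberField L] [Algebra K L] [Finite ι] (x : ι → K) :
    Height.logHeight (fun i ↦ algebraMap K L (x i)) = finrank K L * Height.logHeight x := by
  rw [Height.logHeight_eq_log_mulHeight, mulHeight_algebraMap, Real.log_pow,
    Height.logHeight_eq_log_mulHeight]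

theorem logHeight₁_algebraMap (K L : Type*) [Field K] [NumberField K] [Field L]
    [NumberField L] [Algebra K L] (x : K) :
    Height.logHeight₁ (algebraMap K L x) = finrank K L * Height.logHeight₁ x := by
  rw [Height.logHeight₁_eq_logHeight, Height.logHeight₁_eq_logHeight, ← logHeight_algebraMap K L]
  congr 1
  funext i
  fin_cases i <;> simp

end GEL51
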