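import Mathlib

/-! Gelfond's inequality and Gauss's lemma for products of polynomials in several variables. -/

open MvPolynomial

namespace GEL51

lemma mahler_le_of_circle (p : Polynomial ℂ) {B : ℝ} (h : ∀ t : ℂ, ‖t‖ = 1 → ‖p.eval t‖ ≤ B) :
    p.mahlerMeasure ≤ B := by
  refine p.mahlerMeasure_le_sqrt_sum_sq_norm_coeff.trans
    (Real.sqrt_le_iff.2 ⟨(norm_nonneg _).trans (h 1 (by simp)), ?_⟩)
  rw [Polynomial.sum_sq_norm_coeff_eq_circleAverage]
  refine Real.circleAverage_mono_on_of_le_circle ?_ fun t ht ↦ ?_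
  · exact ContinuousOn.circleIntegrable' (by fun_prop)
  · have h1 : ‖t‖ = 1 := by simpa using ht
    exact pow_le_pow_left₀ (norm_nonneg _) (h t h1) 2

lemma mahler_prod {J : Type*} (s : Finset J) (p : J → Polynomial ℂ) :
    (∏ j ∈ s, p j).mahlerMeasure = ∏ j ∈ s, (p j).mahlerMeasure := by
  classical
  induction s using Finset.induction_on with
  | empty => simp
  | insert j s hj ih => rw [Finset.prod_insert hj, Finset.prod_insert hj,
      Polynomial.mahlerMeasure_mul, ih]

/-- One variable: a bound for the product on the circle bounds the product of coefficients. -/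
lemma prod_coeff_le_circle {J : Type*} (s : Finset J) (p : J → Polynomial ℂ) {B : ℝ}
    (h : ∀ t : ℂ, ‖t‖ = 1 → ‖∏ j ∈ s, (p j).eval t‖ ≤ B) (a : J → ℕ) :
    ∏ j ∈ s, ‖(p j).coeff (a j)‖ ≤ 2 ^ (∑ j ∈ s, (p j).natDegree) * B := by
  have hM : (∏ j ∈ s, p j).mahlerMeasure ≤ B :=
    mahler_le_of_circle _ fun t ht ↦ by rw [Polynomial.eval_prod]; exact h t ht
  rw [mahler_prod] at hM
  refine le_trans ?_ (mul_le_mul_of_nonneg_left hM (by positivity))
  rw [← Finset.prod_pow_eq_pow_sum, ← Finset.prod_mul_distrib]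
  refine Finset.prod_le_prod (fun _ _ ↦ norm_nonneg _) fun j _ ↦
    ((p j).norm_coeff_le_choose_mul_mahlerMeasure (a j)).trans ?_
  refine mul_le_mul_of_nonneg_right ?_ (p j).mahlerMeasure_nonneg
  exact_mod_cast Nat.choose_le_two_pow _ _

lemma prod_coeff_le_fin {J : Type*} (s : Finset J) : ∀ (n : ℕ) (P : J → MvPolynomial (Fin n) ℂ)
    {B : ℝ}, (∀ z : Fin n → ℂ, (∀ i, ‖z i‖ = 1) → ‖∏ j ∈ s, eval z (P j)‖ ≤ B) →
    ∀ a : J → Fin n →₀ ℕ,
      ∏ j ∈ s, ‖coeff (a j) (P j)‖ ≤ 2 ^ (∑ j ∈ s, ∑ i, degreeOf i (P j)) * B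
  | 0, P, B, h, a => by
    have h1 := h (fun i ↦ i.elim0) (fun i ↦ i.elim0)
    simp only [Finset.univ_eq_empty, Finset.sum_empty, Finset.sum_const_zero, pow_zero, one_mul]
    rw [norm_prod] at h1
    refine le_of_eq_of_le (Finset.prod_congr rfl fun j _ ↦ ?_) h1
    rw [Subsingleton.elim (a j) 0]
    conv_rhs => rw [eq_C_of_isEmpty (P j), eval_C]
  | n + 1, P, B, h, a => by
    have hB : 0 ≤ B := (norm_nonneg _).trans (h 1 (by simp))
    have h1 := prod_coeff_le_fin s n (fun j ↦ (finSuccEquiv ℂ n (P j)).coeff (a j 0))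
      (B := 2 ^ (∑ j ∈ s, degreeOf 0 (P j)) * B) (fun z hz ↦ ?_) fun j ↦ (a j).tail
    · simp only [finSuccEquiv_coeff_coeff, Finsupp.cons_tail] at h1
      refine h1.trans ?_
      rw [← mul_assoc, ← pow_add, ← Finset.sum_add_distrib]
      refine mul_le_mul_of_nonneg_right (pow_le_pow_right₀ (by norm_num) ?_) hB
      refine Finset.sum_le_sum fun j _ ↦ ?_
      rw [Fin.sum_univ_succ, add_comm]
      exact Nat.add_le_add_left (Finset.sum_le_sum fun i _ ↦ degreeOf_coeff_finSuccEquiv _ _ _) _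
    · have h2 := prod_coeff_le_circle s (fun j ↦ (finSuccEquiv ℂ n (P j)).map (eval z)) (B := B)
        (fun t ht ↦ ?_) fun j ↦ a j 0
      · simp only [Polynomial.coeff_map] at h2
        rw [norm_prod]
        refine h2.trans (mul_le_mul_of_nonneg_right (pow_le_pow_right₀ (by norm_num) ?_) hB)
        exact Finset.sum_le_sum fun j _ ↦
          Polynomial.natDegree_map_le.trans (natDegree_finSuccEquiv _).le
      · simp only [← eval_eq_eval_mv_eval']
        exact h _ fun i ↦ Fin.cases ht hz i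

/-- A bound for the product on the torus bounds the product of coefficients. -/
lemma prod_coeff_le_torus {J σ : Type*} [Fintype σ] (s : Finset J) (P : J → MvPolynomial σ ℂ)
    {B : ℝ} (h : ∀ z : σ → ℂ, (∀ i, ‖z i‖ = 1) → ‖∏ j ∈ s, eval z (P j)‖ ≤ B) (a : J → σ →₀ ℕ) :
    ∏ j ∈ s, ‖coeff (a j) (P j)‖ ≤ 2 ^ (∑ j ∈ s, ∑ i, degreeOf i (P j)) * B := by
  let e := Fintype.equivFin σ
  have h1 := prod_coeff_le_fin s _ (fun j ↦ rename e (P j)) (B := B) (fun z hz ↦ ?_)
    fun j ↦ (a j).mapDomain e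
  · simp only [coeff_rename_mapDomain e e.injective] at h1
    have e2 : ∀ j, ∑ i, degreeOf i (rename e (P j)) = ∑ i, degreeOf i (P j) := fun j ↦ by
      rw [← e.sum_comp]
      exact Finset.sum_congr rfl fun i _ ↦ degreeOf_rename_of_injective e.injective i
    simpa only [e2] using h1
  · simp only [eval_rename]
    exact h _ fun i ↦ hz _

/-- The sum of the values of `v` on the coefficients. -/
noncomputable def l1 {σ K : Type*} [CommSemiring K] (v : K → ℝ) (P : MvPolynomial σ K) : ℝ :=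
  ∑ m ∈ P.support, v (coeff m P)

lemma eval_le_l1 {σ : Type*} (P : MvPolynomial σ ℂ) {z : σ → ℂ} (hz : ∀ i, ‖z i‖ = 1) :
    ‖eval z P‖ ≤ l1 (‖·‖) P := by
  rw [eval_eq, l1]
  refine (norm_sum_le _ _).trans (Finset.sum_le_sum fun m _ ↦ ?_)
  simp [norm_prod, hz]

/-- Gelfond's inequality over the complex numbers, coefficient form. -/
theorem prod_coeff_le {J σ : Type*} [Fintype σ] (s : Finset J) (P : J → MvPolynomial σ ℂ)
    (a : J → σ →₀ ℕ) : ∏ j ∈ s, ‖coeff (a j) (P j)‖ ≤
      2 ^ (∑ j ∈ s, ∑ i, degreeOf i (P j)) * l1 (‖·‖) (∏ j ∈ s, P j) :=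
  prod_coeff_le_torus s P (fun z hz ↦ by rw [← map_prod]; exact eval_le_l1 _ hz) a

/-- Gelfond's inequality at an infinite place. -/
theorem prod_coeff_le_place {J σ K : Type*} [Fintype σ] [Field K]
    (v : NumberField.InfinitePlace K) (s : Finset J) (P : J → MvPolynomial σ K) (a : J → σ →₀ ℕ) :
    ∏ j ∈ s, v (coeff (a j) (P j)) ≤
      2 ^ (∑ j ∈ s, ∑ i, degreeOf i (P j)) * l1 v (∏ j ∈ s, P j) := by
  have hi : Function.Injective v.embedding := v.embedding.injective
  have h := prod_coeff_le s (fun j ↦ map v.embedding (P j)) a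
  rw [← map_prod] at h
  simpa only [coeff_map, v.norm_embedding_eq, l1, support_map_of_injective _ hi, degreeOf_eq_sup]
    using h

/-- Gauss's lemma, coefficient form, two factors. -/
theorem exists_coeff_nonarch {σ K : Type*} [CommRing K] (v : AbsoluteValue K ℝ)
    (hv : IsNonarchimedean v) (P Q : MvPolynomial σ K) (a b : σ →₀ ℕ) :
    ∃ c, v (coeff a P) * v (coeff b Q) ≤ v (coeff c (P * Q)) := by
  classical
  by_cases hP : P = 0
  · exact ⟨0, by simp [hP]⟩
  by_cases hQ : Q = 0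
  · exact ⟨0, by simp [hQ]⟩
  let _ : LinearOrder σ := linearOrderOfSTO WellOrderingRel
  have key : ∀ R : MvPolynomial σ K, R ≠ 0 → ∃ a0, (∀ x, v (coeff x R) ≤ v (coeff a0 R)) ∧
      0 < v (coeff a0 R) ∧ ∀ x, toLex a0 < toLex x → v (coeff x R) < v (coeff a0 R) := by
    intro R hR
    obtain ⟨a1, h1, h1'⟩ := R.support.exists_max_image (fun x ↦ v (coeff x R))
      (support_nonempty.2 hR)
    obtain ⟨a0, h0, h0'⟩ :=
      (R.support.filter fun x ↦ v (coeff x R) = v (coeff a1 R)).exists_max_image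
      (fun x ↦ toLex x) ⟨a1, by simp [mem_support_iff.1 h1]⟩
    rw [Finset.mem_filter] at h0
    have hall : ∀ x, v (coeff x R) ≤ v (coeff a0 R) := fun x ↦ by
      by_cases hx : x ∈ R.support
      · rw [h0.2]; exact h1' x hx
      · rw [notMem_support_iff.1 hx, map_zero]; exact v.nonneg _
    have hpos : 0 < v (coeff a0 R) := v.pos (mem_support_iff.1 h0.1)
    refine ⟨a0, hall, hpos, fun x hx ↦ lt_of_le_of_ne (hall x) fun e ↦ ?_⟩
    have hxs : x ∈ R.support := mem_support_iff.2 fun e' ↦ by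
      rw [e', map_zero] at e; exact hpos.ne e
    exact absurd (h0' x (Finset.mem_filter.2 ⟨hxs, e.trans h0.2⟩)) (not_le.2 hx)
  obtain ⟨a0, ha, ha0, ha'⟩ := key P hP
  obtain ⟨b0, hb, hb0, hb'⟩ := key Q hQ
  refine ⟨a0 + b0, (mul_le_mul (ha a) (hb b) (v.nonneg _) (v.nonneg _)).trans ?_⟩
  have hmem : (a0, b0) ∈ Finset.HasAntidiagonal.antidiagonal (a0 + b0) := by simp
  rw [coeff_mul, ← Finset.add_sum_erase _ _ hmem]
  set r := ∑ x ∈ (Finset.HasAntidiagonal.antidiagonal (a0 + b0)).erase (a0, b0),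
    coeff x.1 P * coeff x.2 Q with hr
  have hlt : v r < v (coeff a0 P) * v (coeff b0 Q) := by
    rw [hr]
    refine Finset.sum_induction _ (fun y ↦ v y < v (coeff a0 P) * v (coeff b0 Q))
      (fun x y hx hy ↦ (hv x y).trans_lt (max_lt hx hy)) (by rw [map_zero]; positivity) ?_
    rintro ⟨x, y⟩ hxy
    rw [Finset.mem_erase, Finset.HasAntidiagonal.mem_antidiagonal] at hxy
    simp only [map_mul]
    rcases lt_trichotomy (toLex a0) (toLex x) with h | h | h
    · calc v (coeff x P) * v (coeff y Q) ≤ v (coeff x P) * v (coeff b0 Q) :=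
            mul_le_mul_of_nonneg_left (hb y) (v.nonneg _)
        _ < _ := mul_lt_mul_of_pos_right (ha' x h) hb0
    · have hx : a0 = x := toLex.injective h
      subst hx
      have hy : y = b0 := add_left_cancel hxy.2
      exact (hxy.1 (by rw [hy])).elim
    · have hy : toLex b0 < toLex y := by
        by_contra hc
        have : toLex x + toLex y < toLex a0 + toLex b0 := add_lt_add_of_lt_of_le h (not_lt.1 hc)
        rw [← toLex_add, ← toLex_add, hxy.2] at this
        exact lt_irrefl _ this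
      calc v (coeff x P) * v (coeff y Q) ≤ v (coeff a0 P) * v (coeff y Q) :=
            mul_le_mul_of_nonneg_right (ha x) (v.nonneg _)
        _ < _ := mul_lt_mul_of_pos_left (hb' y hy) ha0
  have h3 := hv (coeff a0 P * coeff b0 Q + r) (-r)
  rw [add_neg_cancel_right, map_mul, v.map_neg] at h3
  rcases le_max_iff.1 h3 with h | h
  · exact h
  · exact absurd h (not_le.2 hlt)

/-- Gauss's lemma, coefficient form. -/
theorem exists_coeff_nonarch_prod {J σ K : Type*} [CommRing K] [Nontrivial K]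
    (v : AbsoluteValue K ℝ) (hv : IsNonarchimedean v) (s : Finset J) (P : J → MvPolynomial σ K)
    (a : J → σ →₀ ℕ) : ∃ c, ∏ j ∈ s, v (coeff (a j) (P j)) ≤ v (coeff c (∏ j ∈ s, P j)) := by
  classical
  induction s using Finset.induction_on with
  | empty => exact ⟨0, by simp⟩
  | insert j s hj ih =>
    obtain ⟨c, hc⟩ := ih
    obtain ⟨c', hc'⟩ := exists_coeff_nonarch v hv (P j) (∏ j ∈ s, P j) (a j) c
    refine ⟨c', ?_⟩
    rw [Finset.prod_insert hj, Finset.prod_insert hj]
    exact (mul_le_mul_of_nonneg_left hc (v.nonneg _)).trans hc'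

/-- The multiplicative height of the coefficient vector. -/
noncomputable def mulH {σ K : Type*} [Field K] [Height.AdmissibleAbsValues K]
    (P : MvPolynomial σ K) : ℝ :=
  Height.mulHeight fun m : P.support ↦ coeff m.1 P

lemma coe_ne_zero {σ K : Type*} [Field K] {P : MvPolynomial σ K} (hP : P ≠ 0) :
    (fun m : P.support ↦ coeff m.1 P) ≠ 0 := by
  obtain ⟨m, hm⟩ := support_nonempty.2 hP
  exact fun e ↦ mem_support_iff.1 hm (congrFun e ⟨m, hm⟩)

lemma exists_iSup_eq {σ K : Type*} [Field K] (P : MvPolynomial σ K) {v : K → ℝ} (h0 : v 0 = 0) :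
    ∃ a, (⨆ m : P.support, v (coeff m.1 P)) = v (coeff a P) := by
  by_cases hP : P = 0
  · exact ⟨0, by simp [hP, h0]⟩
  have : Nonempty P.support := (support_nonempty.2 hP).to_subtype
  obtain ⟨a, ha⟩ := exists_eq_ciSup_of_finite (f := fun m : P.support ↦ v (coeff m.1 P))
  exact ⟨a, ha.symm⟩

lemma le_iSup_coeff {σ K : Type*} [Field K] (P : MvPolynomial σ K) (v : AbsoluteValue K ℝ)
    (c : σ →₀ ℕ) : v (coeff c P) ≤ ⨆ m : P.support, v (coeff m.1 P) := by
  by_cases hc : c ∈ P.support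
  · exact le_ciSup (f := fun m : P.support ↦ v (coeff m.1 P)) (Finite.bddAbove_range _) ⟨c, hc⟩
  · rw [notMem_support_iff.1 hc, map_zero]
    exact Real.iSup_nonneg fun _ ↦ v.nonneg _

lemma finite_iSup {ι K : Type*} [Finite ι] [Field K] [NumberField K] {x : ι → K} (hx : x ≠ 0) :
    (fun v : NumberField.FinitePlace K ↦ ⨆ i, v (x i)).HasFiniteMulSupport := by
  have hf : ∀ i : {j // x j ≠ 0},
      (fun v : NumberField.FinitePlace K ↦ v (x i)).HasFiniteMulSupport :=
    fun i ↦ NumberField.FinitePlace.hasFiniteMulSupport i.2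
  refine (Set.finite_iUnion hf).subset fun v hv ↦ ?_
  by_contra hc
  simp only [Set.mem_iUnion, Function.mem_mulSupport, not_exists, not_not] at hc
  obtain ⟨j, hj⟩ := Function.ne_iff.1 hx
  have : Nonempty ι := ⟨j⟩
  refine hv (le_antisymm (ciSup_le fun i ↦ ?_) ?_)
  · by_cases hi : x i = 0
    · simp [hi]
    · exact (hc ⟨i, hi⟩).le
  · exact (hc ⟨j, hj⟩).ge.trans (le_ciSup (f := fun i ↦ v (x i)) (Finite.bddAbove_range _) j)

/-- Gelfond's inequality for heights over a number field. -/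
theorem prod_mulH_le {J σ K : Type*} [Fintype σ] [Field K] [NumberField K] (s : Finset J)
    {P : J → MvPolynomial σ K} (hP : ∀ j ∈ s, P j ≠ 0) :
    ∏ j ∈ s, mulH (P j) ≤
      (2 ^ (∑ i, degreeOf i (∏ j ∈ s, P j)) * (∏ j ∈ s, P j).support.card) ^ Module.finrank ℚ K *
        mulH (∏ j ∈ s, P j) := by
  have hPQ : ∏ j ∈ s, P j ≠ 0 := Finset.prod_ne_zero_iff.2 hP
  have n0 : ∀ (R : MvPolynomial σ K) (v : AbsoluteValue K ℝ),
      0 ≤ ⨆ m : R.support, v (coeff m.1 R) := fun R v ↦ Real.iSup_nonneg fun _ ↦ v.nonneg _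
  have hd : ∑ i, degreeOf i (∏ j ∈ s, P j) = ∑ j ∈ s, ∑ i, degreeOf i (P j) := by
    rw [Finset.sum_comm]
    exact Finset.sum_congr rfl fun i _ ↦ degreeOf_prod_eq _ _ hP
  have hf : ∀ j ∈ s, (fun v : NumberField.FinitePlace K ↦
      ⨆ m : (P j).support, v (coeff m.1 (P j))).HasFiniteMulSupport :=
    fun j hj ↦ finite_iSup (coe_ne_zero (hP j hj))
  simp only [mulH]
  rw [Finset.prod_congr rfl fun j hj ↦ NumberField.mulHeight_eq (coe_ne_zero (hP j hj)),
    NumberField.mulHeight_eq (coe_ne_zero hPQ), Finset.prod_mul_distrib, Finset.prod_comm,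
    ← finprod_prod_comm _ _ hf, ← mul_assoc, ← NumberField.InfinitePlace.sum_mult_eq,
    ← Finset.prod_pow_eq_pow_sum _ fun w : NumberField.InfinitePlace K ↦ w.mult,
    ← Finset.prod_mul_distrib, hd]
  refine mul_le_mul (Finset.prod_le_prod (fun v _ ↦ ?_) fun v _ ↦ ?_) ?_ ?_ ?_
  · exact Finset.prod_nonneg fun j _ ↦ pow_nonneg (n0 _ v.1) _
  · choose a ha using fun j ↦ exists_iSup_eq (P j) (v := v) (map_zero v)
    rw [Finset.prod_pow, ← mul_pow, Finset.prod_congr rfl fun j _ ↦ ha j, mul_assoc]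
    refine pow_le_pow_left₀ (Finset.prod_nonneg fun j _ ↦ apply_nonneg _ _) ?_ _
    refine (prod_coeff_le_place v s P a).trans ?_
    gcongr
    rw [l1, ← nsmul_eq_mul]
    exact Finset.sum_le_card_nsmul _ _ _ fun c _ ↦ le_iSup_coeff _ v.1 c
  · refine finprod_le_finprod ((s.finite_toSet.biUnion hf).subset (s.mulSupport_prod _))
      (fun v ↦ Finset.prod_nonneg fun j _ ↦ n0 _ v.1) (finite_iSup (coe_ne_zero hPQ)) fun v ↦ ?_
    choose a ha using fun j ↦ exists_iSup_eq (P j) (v := v) (map_zero v)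
    obtain ⟨c, hc⟩ := exists_coeff_nonarch_prod v.1 (NumberField.FinitePlace.add_le v) s P a
    simp only [ha]
    exact hc.trans (le_iSup_coeff _ v.1 c)
  · exact finprod_nonneg fun v ↦ Finset.prod_nonneg fun j _ ↦ n0 _ v.1
  · exact Finset.prod_nonneg fun v _ ↦ mul_nonneg (by positivity) (pow_nonneg (n0 _ v.1) _)

lemma card_support_le {σ K : Type*} [Fintype σ] [CommSemiring K] (P : MvPolynomial σ K) :
    P.support.card ≤ 2 ^ ∑ i, degreeOf i P := by
  classical
  have h : P.support.card ≤ (Fintype.piFinset fun i ↦ Finset.range (degreeOf i P + 1)).card :=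
    Finset.card_le_card_of_injOn (fun m i ↦ m i) (fun m hm ↦ by
      simp only [Finset.mem_coe, Fintype.mem_piFinset, Finset.mem_range]
      exact fun i ↦ Nat.lt_succ_of_le (monomial_le_degreeOf i hm))
      fun m _ m' _ e ↦ DFunLike.coe_injective e
  rw [Fintype.card_piFinset] at h
  refine h.trans ?_
  rw [← Finset.prod_pow_eq_pow_sum]
  exact Finset.prod_le_prod' fun i _ ↦ by rw [Finset.card_range]; exact Nat.lt_two_pow_self

/-- Gelfond's inequality, logarithmic form. -/
theorem sum_log_mulH_le {J σ K : Type*} [Fintype σ] [Field K] [NumberField K] (s : Finset J)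
    {P : J → MvPolynomial σ K} (hP : ∀ j ∈ s, P j ≠ 0) :
    ∑ j ∈ s, Real.log (mulH (P j)) ≤ Real.log (mulH (∏ j ∈ s, P j)) +
      2 * Module.finrank ℚ K * ∑ i, (degreeOf i (∏ j ∈ s, P j) : ℝ) := by
  have hp : ∀ Q : MvPolynomial σ K, 0 < mulH Q := fun Q ↦ Height.mulHeight_pos _
  set D := ∑ i, degreeOf i (∏ j ∈ s, P j) with hD
  have h1 : ∏ j ∈ s, mulH (P j) ≤ (2 ^ D * 2 ^ D) ^ Module.finrank ℚ K * mulH (∏ j ∈ s, P j) := by
    refine (prod_mulH_le s hP).trans (mul_le_mul_of_nonneg_right ?_ (hp _).le)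
    gcongr
    exact_mod_cast card_support_le _
  have h2 := Real.log_le_log (Finset.prod_pos fun j _ ↦ hp _) h1
  rw [Real.log_prod fun j _ ↦ (hp _).ne', Real.log_mul (by positivity) (hp _).ne', Real.log_pow,
    ← pow_add, Real.log_pow] at h2
  have h3 : Real.log 2 ≤ 1 := by linarith [Real.log_two_lt_d9]
  have h4 : (∑ i, (degreeOf i (∏ j ∈ s, P j) : ℝ)) = D := by rw [hD]; push_cast; rfl
  rw [h4]
  push_cast at h2
  have h5 : (Module.finrank ℚ K : ℝ) * ((D + D) * Real.log 2) ≤ Module.finrank ℚ K * ((D + D) * 1) := by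
    gcongr
  linarith

end GEL51
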